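import Pool.Agent.H732R3.FI7

set_option autoImplicit false

/-!
# The strong Fröberg–Iarrobino conjecture fails for nine points of projective four-space

For nine general points of `ℙ⁴` the space of forms of degree `38` vanishing to order at least `22`
at each of the points has linear virtual dimension `600`, but its dimension is at least `601`.
-/

open MvPolynomial

namespace Pool.Agent.Results.MP_efa40c_ag.NinePoints

/-- The form `F` in `n + 1` variables vanishes to order at least `m` at the point of projective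
space with coordinate vector `v`: the polynomial `F (v + x)` has no terms of degree `< m`. -/
def VanishesToOrder {n : ℕ} (v : Fin (n + 1) → ℂ) (m : ℕ) (F : MvPolynomial (Fin (n + 1)) ℂ) :
    Prop :=
  ∀ α : Fin (n + 1) →₀ ℕ, α.degree < m → coeff α (aeval (fun i => X i + C (v i)) F) = 0

/-- The vector space `L_{n,d}(m_1, …, m_s)` of forms of degree `d` in `n + 1` variables which vanish
to order at least `m i` at the point with coordinate vector `p i`, for every `i`. -/
noncomputable def linSys (n d : ℕ) {s : ℕ} (m : Fin s → ℕ) (p : Fin s → Fin (n + 1) → ℂ) :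
    Submodule ℂ (MvPolynomial (Fin (n + 1)) ℂ) where
  carrier := {F | F.IsHomogeneous d ∧ ∀ i, VanishesToOrder (p i) (m i) F}
  add_mem' := by
    rintro F G ⟨hF, hF'⟩ ⟨hG, hG'⟩
    refine ⟨hF.add hG, fun i α hα => ?_⟩
    rw [map_add, coeff_add, hF' i α hα, hG' i α hα, add_zero]
  zero_mem' := ⟨isHomogeneous_zero _ _ _, fun i α _ => by rw [map_zero, coeff_zero]⟩
  smul_mem' := by
    rintro c F ⟨hF, hF'⟩
    refine ⟨(homogeneousSubmodule (Fin (n + 1)) ℂ d).smul_mem c hF, fun i α hα => ?_⟩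
    rw [map_smul, coeff_smul, hF' i α hα, smul_zero]

/-- The number `k_I`: it is `d` for `I = ∅` and `max (∑_{i ∈ I} m_i - (|I| - 1) d, 0)` otherwise. -/
def kI (d : ℕ) {s : ℕ} (m : Fin s → ℕ) (I : Finset (Fin s)) : ℕ :=
  if I = ∅ then d else (∑ i ∈ I, m i) - (I.card - 1) * d

/-- The linear virtual dimension, with `c = r + 1 = |I|` running from `0` to `min n s`. -/
def lvdim (n d : ℕ) {s : ℕ} (m : Fin s → ℕ) : ℤ :=
  ∑ c ∈ Finset.range (min n s + 1), ∑ I ∈ Finset.powersetCard c (Finset.univ : Finset (Fin s)),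
    (-1) ^ c * ((n + kI d m I - c).choose n : ℤ)

open Classical in
/-- The linear expected dimension. -/
noncomputable def ldim (n d : ℕ) {s : ℕ} (m : Fin s → ℕ) : ℤ :=
  if ∃ m' : Fin s → ℕ, (∀ i, m' i ≤ m i) ∧ lvdim n d m' < 0 then 0 else max (lvdim n d m) 0

/-- The exceptions (i)-(v) allowed in the conjecture. -/
def Exceptional (n d m s : ℕ) : Prop :=
  s = n + 3 ∨ s = n + 4 ∨ (n = 2 ∧ (s = 7 ∨ s = 8)) ∨ (n = 3 ∧ s = 9 ∧ 2 * m ≤ d) ∨
    (n = 4 ∧ s = 14 ∧ d = 2 * m ∧ (m = 2 ∨ m = 3))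

theorem lvdim_eq : lvdim 4 38 (fun _ : Fin 9 => 22) = 600 := by
  have hk : ∀ c, ∀ I ∈ Finset.powersetCard c (Finset.univ : Finset (Fin 9)),
      kI 38 (fun _ : Fin 9 => 22) I = if c = 0 then 38 else c * 22 - (c - 1) * 38 := by
    intro c I hI
    rw [Finset.mem_powersetCard] at hI
    unfold kI
    rw [← hI.2, Finset.sum_const, smul_eq_mul]
    by_cases h : I = ∅
    · rw [if_pos h, if_pos (by rw [h]; rfl)]
    · rw [if_neg h, if_neg (by rwa [Finset.card_eq_zero])]
  have hs : ∀ c, ∑ I ∈ Finset.powersetCard c (Finset.univ : Finset (Fin 9)),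
      (-1 : ℤ) ^ c * ((4 + kI 38 (fun _ : Fin 9 => 22) I - c).choose 4 : ℤ) =
      (Nat.choose 9 c : ℤ) *
        ((-1) ^ c * ((4 + (if c = 0 then 38 else c * 22 - (c - 1) * 38) - c).choose 4 : ℤ)) := by
    intro c
    rw [Finset.sum_congr rfl fun I hI => by rw [hk c I hI], Finset.sum_const,
      Finset.card_powersetCard, Finset.card_univ, Fintype.card_fin, nsmul_eq_mul]
  unfold lvdim
  rw [Finset.sum_congr rfl fun c _ => hs c]
  norm_num [Finset.sum_range_succ, Nat.choose]

theorem ldim_le : ldim 4 38 (fun _ : Fin 9 => 22) ≤ 600 := by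
  unfold ldim
  split_ifs
  · norm_num
  · rw [lvdim_eq]
    norm_num

open Pool.Agent.H732R3.FI in
theorem ker_le (p : Fin 9 → Fin (4 + 1) → ℂ) :
    (LinearMap.ker (Psi p 17 4)).map
      (homogeneousSubmodule (Fin 5) ℂ (4 + 17 + 17)).subtype ≤ linSys 4 38 (fun _ => 22) p := by
  rintro _ ⟨F, hF, rfl⟩
  have hF38 : (F.1).IsHomogeneous 38 := F.2
  refine ⟨hF38, fun i α hα => ?_⟩
  have hα' : α.degree < 22 := hα
  have hE : (E (p i) ^ 17) F.1 = 0 := by
    have h1 : Psi p 17 4 F = 0 := hF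
    rw [← Psi_coe, h1]
    rfl
  have hN : ∀ k, 17 ≤ k → (E (p i) ^ k) F.1 = 0 := by
    intro k hk
    obtain ⟨j, rfl⟩ := Nat.exists_eq_add_of_le hk
    rw [Nat.add_comm 17 j, pow_add, Module.End.mul_apply, hE, map_zero]
  have ht := taylor_eval (A := MvPolynomial (Fin (4 + 1)) ℂ) X (p i) 1 F.1 17 hN
  have e : (fun j => X j + 1 * algebraMap ℂ (MvPolynomial (Fin (4 + 1)) ℂ) (p i j)) =
      fun j => X j + C (p i j) := by
    funext j
    rw [one_mul]
    rfl
  rw [e] at ht
  have ht' : aeval (fun j => X j + C (p i j)) ((homogeneousSubmodule (Fin 5) ℂ (4 + 17 + 17)).subtype F) =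
      aeval (fun j => X j + C (p i j)) F.1 := rfl
  rw [ht', ht, coeff_sum]
  refine Finset.sum_eq_zero fun k hk => ?_
  rw [Finset.mem_range] at hk
  have hk' : ((E (p i) ^ k) F.1).IsHomogeneous (38 - k) :=
    Epow_hom (p i) k (by rwa [Nat.sub_add_cancel (by omega)])
  rw [one_pow, mul_one, aeval_X_left_apply, MvPolynomial.algebraMap_eq, coeff_C_mul,
    hk'.coeff_eq_zero (by omega), mul_zero]

/-- **The strong Fröberg–Iarrobino conjecture is false.** The quadruple
`(n, d, m, s) = (4, 38, 22, 9)` is none of the exceptions (i)-(v), and for general points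
(all nine-tuples of points outside the hypersurface given by a nonzero polynomial `P` in their
coordinates) the dimension of `L_{4,38}(22^9)` is larger than the linear expected dimension. -/
theorem result :
    ¬ Exceptional 4 38 22 9 ∧
    ∃ P : MvPolynomial (Fin 9 × Fin (4 + 1)) ℂ, P ≠ 0 ∧
      ∀ p : Fin 9 → Fin (4 + 1) → ℂ, eval (fun lk => p lk.1 lk.2) P ≠ 0 →
        ldim 4 38 (fun _ : Fin 9 => 22) <
          (Module.finrank ℂ (linSys 4 38 (fun _ : Fin 9 => 22) p) : ℤ) := by
  refine ⟨by unfold Exceptional; omega, _, Pool.Agent.H732R3.FI.Gc_ne_zero ℂ, fun p hp => ?_⟩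
  rw [Pool.Agent.H732R3.FI.map_Gc] at hp
  simp only [eval_X] at hp
  have h1 := Pool.Agent.H732R3.FI.main_bound p hp
  have hle : linSys 4 38 (fun _ : Fin 9 => 22) p ≤ homogeneousSubmodule (Fin (4 + 1)) ℂ 38 :=
    fun F hF => hF.1
  have hfin : Module.Finite ℂ ↥(linSys 4 38 (fun _ : Fin 9 => 22) p) :=
    Submodule.finiteDimensional_of_le hle
  have h2 := Submodule.finrank_mono (R := ℂ) (ker_le p)
  rw [Submodule.finrank_map_subtype_eq] at h2
  have h3 := ldim_le
  generalize Module.finrank ℂ (linSys 4 38 (fun _ : Fin 9 => 22) p) = a at h2 ⊢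
  generalize Module.finrank ℂ ↥(Pool.Agent.H732R3.FI.Psi p 17 4).ker = b at h1 h2
  omega

end Pool.Agent.Results.MP_efa40c_ag.NinePoints
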